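import Pool.Agent.helper83.OD.Spec

/-!
# Project pq (MP_ebc808_nt): the parity of `p(n)` in every class modulo `2^i`

THEOREM. For every `i`, every class `a` modulo `2^i` and every periodic `r : ℕ → ZMod 2` (any period):
`#{n ≤ X : n = a mod 2^i, p(n) ≠ r(n) mod 2} ≥ c X^(3/4)/(log X)^2` for all large `X`.
(`r = 0`: odd values, `r = 1`: even values in EVERY class modulo `2^i`.)

Notation: `b` odd, `B = 2^b`, `k = Q₁ P`, `M = Q₂ P'` with fixed `Q₁, Q₂` and primes `P, P'` of `(y, 2y]`.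
Identity GID: `∑_u J(k, M - B u²) + ∑_u J(k - B u², M) = ∑_(0<i<B) τ_i(k) τ_(B-i)(M)`, `τ_i(n) = [x^n] vvx^i`.
All numbers which occur are `= k M mod 2^b`.
* `r = 0` on the class (ODD part): `b = 2κ+1`, `k = P`, `M = q_1 ... q_(2^κ-3) P'`, all primes `= 7 mod 24`; by LEMMA Q (block of
helper57) the right side is `1`; so one of the values `p(n)` is odd.
* otherwise (EVEN part): `k = q_1 ... q_h P`, `h ≥ B`: the right side is `0` (NIL). If all values were `p(n) = r(n)` then the number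
(modulo 2) of `u ≤ sqrt(M/B)` with `r = 1` would be a constant `e(k)`. Take `M = μ^(4j) P'`, `j = 0, ..., K`: the digits of `sqrt(P'/B)` to the base `μ²`
show that only a small proportion of the `P'` can have this for all `j` (Brun-Titchmarsh in intervals of length about `sqrt y`).

Rules: module `XX`: file `Pool/Agent/<seat>/PQ/XX.lean`, `import Pool.Agent.helper7.PQ.Spec` (you may also import
`Pool.Agent.helper83.OD.AllO`: it gives the theorems `Pool.Agent.EP.{FRO, WM, JN, all_JW, all_NEG, VTH}`, `Pool.Agent.OD.{V1, V16, ...}`), namespace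
`Pool.Agent.PQ`, auxiliary lemmas prefixed `XX_`. No double quotes, no `convert`, no `congr!`, no `native_decide`.
-/

set_option autoImplicit false

open Finset PowerSeries

noncomputable section

namespace Pool.Agent.PQ

open Pool.Agent.EP

/-! ### Definitions -/

/-- The numbers `u` prime to `6` with `2^b u^2 ≤ N`. -/
def uB (b N : ℕ) : Finset ℕ := {u ∈ range (N + 1) | u.Coprime 6 ∧ 2 ^ b * u ^ 2 ≤ N}

/-- The pair `(P, P')` leads to `n`. -/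
def RelP (B Q₁ Q₂ P P' n : ℕ) : Prop := ∃ u : ℕ,
  (B * u ^ 2 < Q₂ * P' ∧ 24 * n = Q₁ * P * (Q₂ * P' - B * u ^ 2) + 1) ∨
  (B * u ^ 2 < Q₁ * P ∧ 24 * n = (Q₁ * P - B * u ^ 2) * (Q₂ * P') + 1)

/-- The exceptional pairs `(P, P')`. -/
def ExcP (B Q₁ Q₂ P P' : ℕ) : Prop :=
  (∃ u : ℕ, Q₁ * P + Q₂ * P' = B * u ^ 2) ∨
  (∃ u : ℕ, B * u ^ 2 < Q₂ * P' ∧ P ∣ Q₂ * P' - B * u ^ 2) ∨
  (∃ u : ℕ, B * u ^ 2 < Q₁ * P ∧ P' ∣ Q₁ * P - B * u ^ 2)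

/-- The right side of the identity. -/
def RB (b k M : ℕ) : ZMod 2 :=
  ∑ i ∈ Ico 1 (2 ^ b), (vvx ^ i).coeff (k : ℤ) * (vvx ^ (2 ^ b - i)).coeff (M : ℤ)

/-- The function `r` on the numbers `k (M - 2^b u^2)` in terms of `u`. -/
def gG (b t m : ℕ) (r : ℕ → ZMod 2) (u : ℕ) : ZMod 2 :=
  if u.Coprime 6 then r ((m + (24 * t * 2 ^ b - 2 ^ b) * u ^ 2 + 1) / 24) else 0

/-- Partial sums of `gG`. -/
def chi (b t m : ℕ) (r : ℕ → ZMod 2) (U : ℕ) : ZMod 2 := ∑ u ∈ range (U + 1), gG b t m r u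

/-- The class of `P'`. -/
def mm (b n₀ u₀ : ℕ) : ℕ := 24 * n₀ - 1 + 2 ^ b * u₀ ^ 2

/-- The data of the even part. -/
def EDat (b t : ℕ) (r : ℕ → ZMod 2) (n₀ u₀ μ : ℕ) (s : Finset ℕ) : Prop :=
  b % 2 = 1 ∧ 3 ≤ b ∧ 0 < t ∧ (∀ n, r (n + t) = r n) ∧ 0 < n₀ ∧ r n₀ = 1 ∧ u₀.Coprime 6 ∧
    (mm b n₀ u₀).Coprime (24 * t * 2 ^ b) ∧ (∀ q ∈ s, q.Prime ∧ q % 24 = 7 ∧ 24 * t * 2 ^ b < q) ∧ 2 ^ b ≤ #s ∧
    μ.Prime ∧ 24 * t * 2 ^ b * (∏ q ∈ s, q) ∣ μ + 1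

/-- The primes `P` of the even part. -/
def PC (b t μ : ℕ) (s : Finset ℕ) (P : ℕ) : Prop :=
  P.Prime ∧ ((∏ q ∈ s, q) * P) % (24 * t * 2 ^ b) = 1 ∧ μ ∣ (∏ q ∈ s, q) * P + 1 ∧ P ∉ s

/-- The primes `P'` of the even part. -/
def PD (b t n₀ u₀ : ℕ) (s : Finset ℕ) (P' : ℕ) : Prop :=
  P'.Prime ∧ P' % (24 * t * 2 ^ b) = mm b n₀ u₀ % (24 * t * 2 ^ b) ∧ ∀ q ∈ s, q ∣ P' + 1

/-! ### Statements of the block of helper57 (hypotheses here) -/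

/-- **LQ** (LEMMA Q, block of helper57). -/
def LQ_stmt : Prop := ∀ (κ : ℕ) (s : Finset ℕ), 1 ≤ κ → (∀ q ∈ s, q.Prime ∧ q % 24 = 7) → #s + 2 = 2 ^ κ →
  (∀ i : ℕ, i + 7 < 2 * 4 ^ κ → i.Coprime 6 → (vvx ^ i).coeff ((∏ q ∈ s, q : ℕ) : ℤ) = 0) ∧
  (vvx ^ (2 * 4 ^ κ - 7)).coeff ((∏ q ∈ s, q : ℕ) : ℤ) = 1

/-- **L7** (block of helper57). `p = u^2 + 6 v^2` in exactly one way. -/
def L7_stmt : Prop := ∀ p : ℕ, p.Prime → p % 24 = 7 → (vvx ^ 7).coeff (p : ℤ) = 1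

/-- **NIL** (block of helper57). -/
def NIL_stmt : Prop := ∀ (s : Finset ℕ) (m i : ℕ), (∀ q ∈ s, q.Prime ∧ q % 24 = 7 ∧ ¬ q ∣ m) → m.Coprime 6 →
  i ≤ #s → (vvx ^ i).coeff (((∏ q ∈ s, q) * m : ℕ) : ℤ) = 0

/-! ### The identity -/

/-- **VCL** (short, 40 lines). Exponents of `vvx^i`. Proof. `vvx^i = single i 1 * ofPowerSeries (expand 24 (EE^i))` (ring homomorphisms; compare
Pool/Agent/helper99/EP/VTH.lean), so the coefficient at `N` is `0` unless `N - i ≥ 0` and `24 ∣ N - i`. -/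
def VCL_stmt : Prop := ∀ (i : ℕ) (N : ℤ), (vvx ^ i).coeff N ≠ 0 → (24 : ℤ) ∣ N - i ∧ (i : ℤ) ≤ N

/-- **GV** (medium, 80 lines; uses `FRO`, `V1`: copy of Pool/Agent/helper33/OD/V16.lean with `16 = 2^4` replaced by `2^b`). The coefficients of
`f * vvx^(2^b)` if `f` has no term below `-k`. -/
def GV_stmt : Prop := ∀ (b k : ℕ) (f : KK), (∀ N : ℤ, N < -(k : ℤ) → f.coeff N = 0) → ∀ M : ℤ,
  (f * vvx ^ (2 ^ b)).coeff M = ∑ u ∈ uB b (M + k).toNat, f.coeff (M - 2 ^ b * (u : ℤ) ^ 2)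

/-- **JC** (medium, 100 lines; uses `JW`, `JN`, `WM`, `FRO`, `V1` or VCL). The element of `WW` with the coefficients `JG ac k` is the sum of the `ww^i`,
`i ≥ 1`, with `(vvx^i).coeff k = 1`. Proof. `f` := the element of `WW` (JW). Every element of `WW` (span over the field with two elements) is a sum
`∑_(i ∈ s) ww^i`, `s` a finite set of positive integers (see the proof of SPL in Pool/Agent/helper51/OD/SPL.lean). Let `i ≥ 1`. The coefficient of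
`f * vvx^i` at `0`: on the one hand it is `∑_(l ∈ s) (ww^l vvx^i).coeff 0`; `ww vvx = 1` (WM, second part): for `l < i` it is `(vvx^(i-l)).coeff 0 = 0` (VCL),
for `l = i` it is `1`, for `l > i` it is `(ww^(l-i)).coeff 0`, which is `0`: write `l - i = 2^a c`, `c` odd, by FRO it equals `(ww^c).coeff 0`, and by WM this is
`0` as `24` does not divide `c`. So it is `1` if `i ∈ s` and `0` otherwise. On the other hand (`HahnSeries.coeff_mul`; or GV-like) it is the sum over `N`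
of `f.coeff (-N) (vvx^i).coeff N`; `(vvx^i).coeff N ≠ 0` needs `N ≥ i ≥ 1` (VCL), and then `f.coeff (-N) = JG ac k (-N) = 1` iff `N = k` (JN). So it is
`(vvx^i).coeff k`. -/
def JC_stmt : Prop := ∀ k : ℕ, k.Coprime 6 → ∃ s : Finset ℕ, (∀ i ∈ s, 1 ≤ i) ∧
  (∀ M : ℤ, (∑ i ∈ s, ww ^ i).coeff M = JG ac k M) ∧
  ∀ i : ℕ, 1 ≤ i → ((vvx ^ i).coeff (k : ℤ) = if i ∈ s then 1 else 0)

/-- **GID** (medium, 120 lines; from GV, JC, `JW`, `JN`, `NEG`, VCL; model: Pool/Agent/helper11/OD/ODR.lean and helper87/OD/ID16.lean). The identity.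
Proof. `B = 2^b = 2 mod 3`, even. Let `f = ∑_(i ∈ s) ww^i` (JC). `f vvx^B = ∑_(i ∈ s, i > B) ww^(i-B) + ∑_(i ∈ s, i < B) vvx^(B-i)` (`ww vvx = 1`;
`B ∉ s` since `(vvx^B).coeff k ≠ 0` would give `24 ∣ k - B`, but `k` is odd). For `u ∈ uB b k` the number `k - B u^2` is positive (`k` odd, `B` even) and
prime to `6` (odd; modulo 3 it is `1 - 2 = 2` as `u^2 = 1`); `f_u ∈ WW` := the element of JW for it. `F := ∑_(i ∈ s, i > B) ww^(i-B) + ∑_u f_u ∈ WW`. For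
`M < 0` the coefficient of the `vvx^(B-i)` is `0` (VCL), so the coefficient of the first part is that of `f vvx^B`, by GV (`f` has no term below `-k`, JN)
`∑_(u ∈ uB b (M+k)) JG ac k (M - B u^2)`, arguments negative, so it is `1` iff `M - B u^2 = -k` for some such `u` (JN); the second part gives the same
(JN: `JG ac (k - B u^2) M = 1` iff `M = -(k - B u^2)`). So `F = 0` by NEG. Compare the coefficients at `M` of `f vvx^B + ∑_u f_u = ∑_(i ∈ s, i < B) vvx^(B-i)`; by JC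
`i ∈ s` iff `(vvx^i).coeff k = 1`. (The statement is for all integers `M`; characteristic 2.) -/
def GID_stmt : Prop := ∀ b k : ℕ, b % 2 = 1 → k % 6 = 1 → ∀ M : ℤ,
  (∑ u ∈ uB b (M + k).toNat, JG ac k (M - 2 ^ b * (u : ℤ) ^ 2)) + (∑ u ∈ uB b k, JG ac (k - 2 ^ b * u ^ 2) M) =
    ∑ i ∈ Ico 1 (2 ^ b), (vvx ^ i).coeff (k : ℤ) * (vvx ^ (2 ^ b - i)).coeff M

/-- **JGC** (short, 30 lines). Proof: the only common divisor is `1`. -/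
def JGC_stmt : Prop := ∀ j m : ℕ, 0 < j → 0 < m → Nat.Coprime j m → JG ac j (m : ℤ) = ac ((j * m : ℕ) : ℤ)

/-- **SUMP** (medium, 100 lines; from GID, JGC, `JN`). The identity for a pair of primes. Proof. GID with `k = Q₁ P` and `M = Q₂ P'`. First sum: if
`2^b u^2 ≤ M` then `<` (`M` is odd), `m = M - 2^b u^2 > 0` is prime to `Q₁` (hypothesis) and to `P` (not exceptional), so JGC. If `2^b u^2 > M` (and
`≤ M + k`) the argument is negative and JN gives `1` iff `M - 2^b u^2 = -k`, excluded (not exceptional). Second sum: `2^b u^2 < k` (`k` odd),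
`j = k - 2^b u^2` is prime to `Q₂` and to `P'`, JGC. `uB b M` is the part of `uB b (M+k)` with `2^b u^2 ≤ M`. -/
def SUMP_stmt : Prop := ∀ b Q₁ Q₂ P P' : ℕ, b % 2 = 1 → P.Prime → P'.Prime → (Q₁ * P) % 6 = 1 → (Q₂ * P') % 2 = 1 →
  ¬ ExcP (2 ^ b) Q₁ Q₂ P P' →
  (∀ u : ℕ, 2 ^ b * u ^ 2 < Q₂ * P' → Nat.Coprime Q₁ (Q₂ * P' - 2 ^ b * u ^ 2)) →
  (∀ u : ℕ, 2 ^ b * u ^ 2 < Q₁ * P → Nat.Coprime (Q₁ * P - 2 ^ b * u ^ 2) Q₂) →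
  (∑ u ∈ uB b (Q₂ * P'), ac ((Q₁ * P * (Q₂ * P' - 2 ^ b * u ^ 2) : ℕ) : ℤ)) +
    (∑ u ∈ uB b (Q₁ * P), ac (((Q₁ * P - 2 ^ b * u ^ 2) * (Q₂ * P') : ℕ) : ℤ)) = RB b (Q₁ * P) (Q₂ * P')

/-- **NR** (short, 50 lines). `2^b` is a square modulo `q` (`q = 7 mod 8`) times a square, `-1` is not. Proof. If `q ∣ N - 2^b u^2` then
`-1 = N = 2^b u^2 = 2 (2^((b-1)/2) u)^2` modulo `q`; `2` is a square modulo `q` (`ZMod.exists_sq_eq_two_iff`), so `-1` is a square, but `q = 3 mod 4`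
(`ZMod.exists_sq_eq_neg_one_iff`). -/
def NR_stmt : Prop := ∀ q b N u : ℕ, q.Prime → q % 8 = 7 → b % 2 = 1 → q ∣ N + 1 → 2 ^ b * u ^ 2 < N →
  ¬ q ∣ N - 2 ^ b * u ^ 2

/-! ### The odd part -/

/-- **OSD** (medium, 70 lines; from LQ, L7, VCL). The right side of the identity is `1`. Proof. `B = 2^(2κ+1) = 2 * 4^κ = 8 mod 24`. Let the term `i` be not `0`. VCL:
`24 ∣ P - i`, so `i = 7 mod 24`, `i ≥ 7`, and `B - i = 1 mod 24` is prime to `6`. `Q₂ P' = ∏ q ∈ insert P' s, q` (`P' ∉ s`) is a product of `2^κ - 2` primes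
`= 7 mod 24`. If `i > 7` then `B - i + 7 < 2 * 4^κ` and LQ says that the second factor is `0`. So `i = 7`: both factors are `1` (L7, LQ). `7 < B`. -/
def OSD_stmt : Prop := ∀ (κ : ℕ) (s : Finset ℕ) (P P' : ℕ), 2 ≤ κ → (∀ q ∈ s, q.Prime ∧ q % 24 = 7) → #s + 3 = 2 ^ κ →
  P.Prime → P % 24 = 7 → P'.Prime → P' % 24 = 7 → P' ∉ s → RB (2 * κ + 1) P ((∏ q ∈ s, q) * P') = 1

/-- **OEV** (short, 60 lines; from SUMP, OSD, NR). One of the values is odd. Proof. SUMP with `Q₁ = 1`, `Q₂ = ∏ q ∈ s, q` (odd; `P = 1 mod 6`). The first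
coprimality is trivial. The second: a prime divisor of `Q₂` is some `q ∈ s` (`Prime.dvd_finset_prod_iff` and equality of primes), `q ∣ P + 1`, NR. The right
side is `1` (OSD; `1 * P = P`). So some `ac N` is not `0`, `N = 1 * P * (Q₂ P' - 2^b u^2)` or `N = (1 * P - 2^b u^2) (Q₂ P')`, `u ∈ uB` gives `<` as `Q₂ P'`, `P` are odd. `ac N ≠ 0` means
`N % 24 = 23` and `pp ((N+1)/24) ≠ 0` (`JP1_ac` in Pool/Agent/helper60/OD/JP1.lean). -/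
def OEV_stmt : Prop := ∀ (κ : ℕ) (s : Finset ℕ) (P P' : ℕ), 2 ≤ κ → (∀ q ∈ s, q.Prime ∧ q % 24 = 7) → #s + 3 = 2 ^ κ →
  P.Prime → P % 24 = 7 → P'.Prime → P' % 24 = 7 → P' ∉ s → (∀ q ∈ s, q ∣ P + 1) →
  ¬ ExcP (2 ^ (2 * κ + 1)) 1 (∏ q ∈ s, q) P P' →
  ∃ n : ℕ, RelP (2 ^ (2 * κ + 1)) 1 (∏ q ∈ s, q) P P' n ∧ pp n ≠ 0

/-! ### The even part -/

/-- **EVK** (medium, 70 lines; from SUMP). A value different from `r`. Proof. SUMP: the sum of the `ac N` is `0`. Every `N` is `23 mod 24`: modulo 8 it is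
`Q₁ P Q₂ P' = 7` (`8 ∣ 2^b`), modulo 3: `2^b = 2`, `u^2 = 1` (`u` prime to `6`), so `1 (1 - 2) = 2`. So `ac N = pp ((N+1)/24)`. If all these were
`r ((N+1)/24)` then the sum of the `r`-values would be `0`. So for one of them `pp ((N+1)/24) ≠ r ((N+1)/24)`; `n = (N+1)/24`, `24 n = N + 1`. -/
def EVK_stmt : Prop := ∀ (b Q₁ Q₂ P P' : ℕ) (r : ℕ → ZMod 2), b % 2 = 1 → 3 ≤ b → P.Prime → P'.Prime →
  (Q₁ * P) % 6 = 1 → (Q₂ * P') % 3 = 1 → (Q₁ * P * (Q₂ * P')) % 8 = 7 →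
  ¬ ExcP (2 ^ b) Q₁ Q₂ P P' →
  (∀ u : ℕ, 2 ^ b * u ^ 2 < Q₂ * P' → Nat.Coprime Q₁ (Q₂ * P' - 2 ^ b * u ^ 2)) →
  (∀ u : ℕ, 2 ^ b * u ^ 2 < Q₁ * P → Nat.Coprime (Q₁ * P - 2 ^ b * u ^ 2) Q₂) →
  RB b (Q₁ * P) (Q₂ * P') = 0 →
  (∑ u ∈ uB b (Q₂ * P'), r ((Q₁ * P * (Q₂ * P' - 2 ^ b * u ^ 2) + 1) / 24)) +
    (∑ u ∈ uB b (Q₁ * P), r (((Q₁ * P - 2 ^ b * u ^ 2) * (Q₂ * P') + 1) / 24)) ≠ 0 →
  ∃ n : ℕ, RelP (2 ^ b) Q₁ Q₂ P P' n ∧ pp n ≠ r n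

/-- **RPE** (short, 40 lines). `r` has period `t` and `N = N' mod 24 t`, both `23 mod 24`. Proof: `(N+1)/24 = (N'+1)/24 mod t`
(`24 ((N+1)/24) = N + 1`), and `r` is constant on classes modulo `t`. -/
def RPE_stmt : Prop := ∀ (t : ℕ) (r : ℕ → ZMod 2) (N N' : ℕ), 0 < t → (∀ n, r (n + t) = r n) → N % 24 = 23 →
  N % (24 * t) = N' % (24 * t) → r ((N + 1) / 24) = r ((N' + 1) / 24)

/-- **C1** (medium, 80 lines; from RPE). The first sum. Proof. `2^b u^2 ≤ M` iff `u^2 ≤ M / 2^b` iff `u ≤ sqrt (M / 2^b)` (`Nat.le_sqrt`,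
`Nat.le_div_iff_mul_le`), so `uB b M` is the set of the `u ∈ range (sqrt (M/2^b) + 1)` which are prime to `6` (`u ≤ M` as `u ≤ 2^b u^2`). For such `u` let
`N = k (M - 2^b u^2)`, `N' = m + (24 t 2^b - 2^b) u^2`. Modulo `L = 24 t 2^b` (as integers): `N = M - 2^b u^2 = m - 2^b u^2 = N'`. `N' = 23 mod 24`: `m = 7`, and modulo 24
`(24 t 2^b - 2^b) u^2 = - 2^b u^2 = -8` (`2^b = 8 mod 24` for odd `b ≥ 3`; `u^2 = 1 mod 24`). `24 t ∣ L`. RPE. -/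
def C1_stmt : Prop := ∀ (b t m : ℕ) (r : ℕ → ZMod 2) (k M : ℕ), b % 2 = 1 → 3 ≤ b → 0 < t → (∀ n, r (n + t) = r n) →
  m % 24 = 7 → k % (24 * t * 2 ^ b) = 1 → M % (24 * t * 2 ^ b) = m % (24 * t * 2 ^ b) →
  ∑ u ∈ uB b M, r ((k * (M - 2 ^ b * u ^ 2) + 1) / 24) = chi b t m r (Nat.sqrt (M / 2 ^ b))

/-- **C2** (short, 50 lines; from RPE). The second sum depends only on `k`. Proof: take `e k` := the sum with `M = m`. For `u ∈ uB b k` and `M = m` modulo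
`24 t 2^b` the numbers `(k - 2^b u^2) M` and `(k - 2^b u^2) m` agree modulo `24 t`, and `(k - 2^b u^2) m = (1 - 8) 7 = 23 mod 24` (`k = 1 mod 24`,
`2^b u^2 = 8 mod 24`). RPE. -/
def C2_stmt : Prop := ∀ (b t m : ℕ) (r : ℕ → ZMod 2), b % 2 = 1 → 3 ≤ b → 0 < t → (∀ n, r (n + t) = r n) →
  m % 24 = 7 → ∃ e : ℕ → ZMod 2, ∀ k M : ℕ, k % (24 * t * 2 ^ b) = 1 → M % (24 * t * 2 ^ b) = m % (24 * t * 2 ^ b) →
    ∑ u ∈ uB b k, r (((k - 2 ^ b * u ^ 2) * M + 1) / 24) = e k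

/-- **CHW** (short-medium, 70 lines). In every window of length `24 t + 1` the function `chi` takes a value different from `e`.
Proof. `gG` at `u₀`: `(mm + (24 t 2^b - 2^b) u₀^2 + 1)/24 = n₀ + t 2^b u₀^2`, so `gG u₀ = r n₀ = 1` (`24 n₀ - 1 + 1 = 24 n₀`). `gG` has period `24 t`: `6 ∣ 24 t`, and
`(24 t 2^b - 2^b)((u + 24t)^2 - u^2) = 24 t * (2^b (24t - 1)) (2u + 24t)`, `/24` changes by a multiple of `t`; `r` is periodic. Choose `u` in `[a+1, a+24t]` with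
`u = u₀ mod 24 t`: `gG u = 1`, `chi u = chi (u-1) + 1`, so one of `chi (u-1)`, `chi u` is not `e`. -/
def CHW_stmt : Prop := ∀ (b t n₀ u₀ : ℕ) (r : ℕ → ZMod 2), 0 < t → (∀ n, r (n + t) = r n) → 0 < n₀ → r n₀ = 1 →
  u₀.Coprime 6 → ∀ (a : ℕ) (e : ZMod 2), ∃ x ∈ Ico a (a + (24 * t + 1)), chi b t (mm b n₀ u₀) r x ≠ e

/-- **ERB** (short, 40 lines; from NIL). The right side is `0`. Proof. `RB b (Q P) M` with `Q = ∏ q ∈ s, q`: every first factor `(vvx^i).coeff (Q P)`, `i < 2^b ≤ #s`, is `0`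
by NIL (`P` is a prime not in `s`, so no `q ∈ s` divides it; `P` is prime to `6`: `(Q P) % (24 t 2^b) = 1`). -/
def ERB_stmt : Prop := ∀ (b t n₀ u₀ μ : ℕ) (r : ℕ → ZMod 2) (s : Finset ℕ) (P M : ℕ), EDat b t r n₀ u₀ μ s →
  PC b t μ s P → RB b ((∏ q ∈ s, q) * P) M = 0

/-- **EVE** (medium, 120 lines; from EVK, C1, ERB, NR). A value different from `r`. Let `L = 24 t 2^b`, `Q = ∏ q ∈ s, q`, `k = Q P`, `M = μ^(4j) P'`, `m = mm b n₀ u₀`.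
Facts: `m = 7 mod 24` (`24 n₀ - 1 + 8 * 1`: `2^b = 8`, `u₀^2 = 1` modulo 24). `μ = -1` modulo `L Q`, so `μ^(4j) = 1` modulo `L` and modulo every `q ∈ s`; `M = P' = m mod L`,
`q ∣ M + 1`. `k = 1 mod L`, `μ ∣ k + 1`, `μ = 7 mod 8` (`8 ∣ L`). EVK with `Q₁ = Q`, `Q₂ = μ^(4j)`: `k = 1 mod 6`, `M = 1 mod 3`, `k M = 7 mod 8`. Coprimality of `Q` and
`M - 2^b u^2`: NR for `q ∈ s` (`q = 7 mod 8`). Coprimality of `k - 2^b u^2` and `μ^(4j)`: NR for `μ`. `RB = 0` (ERB). The first sum of EVK is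
`chi .. (sqrt (M/2^b))` (C1), the second is `e k` (hypothesis on `e`), their sum is not `0` (characteristic 2). -/
def EVE_stmt : Prop := ∀ (b t n₀ u₀ μ : ℕ) (r : ℕ → ZMod 2) (s : Finset ℕ) (e : ℕ → ZMod 2) (P P' j : ℕ),
  EDat b t r n₀ u₀ μ s → PC b t μ s P → PD b t n₀ u₀ s P' →
  (∀ k M : ℕ, k % (24 * t * 2 ^ b) = 1 → M % (24 * t * 2 ^ b) = mm b n₀ u₀ % (24 * t * 2 ^ b) →
    ∑ u ∈ uB b k, r (((k - 2 ^ b * u ^ 2) * M + 1) / 24) = e k) →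
  ¬ ExcP (2 ^ b) (∏ q ∈ s, q) (μ ^ (4 * j)) P P' →
  chi b t (mm b n₀ u₀) r (Nat.sqrt (μ ^ (4 * j) * P' / 2 ^ b)) ≠ e ((∏ q ∈ s, q) * P) →
  ∃ n : ℕ, RelP (2 ^ b) (∏ q ∈ s, q) (μ ^ (4 * j)) P P' n ∧ pp n ≠ r n

/-! ### Digits -/

open Classical in
/-- **DIG** (medium, 90 lines). Counting with digits. Proof: induction on `K`. `K = 0`: at most `c - a` elements. Step: the map `U ↦ V = U / ν` sends the set
for `K + 1` into the set for `K` (`V ∈ Ico (ν^K a) (ν^K c)`, `V / ν^i = U / ν^(i+1)`, `Nat.div_div_eq_div_mul`), and the fibre over `V` consists of elements `U` of `[ν V, ν V + ν)` with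
`f U = e` (`i = 0`). This interval contains `ν / T` disjoint windows `[ν V + l T, ν V + (l+1) T)`, `l < ν/T`, each with an element where `f ≠ e`; so the fibre
has at most `ν - ν / T` elements (the chosen elements for different `l` are different). -/
def DIG_stmt : Prop := ∀ (f : ℕ → ZMod 2) (T : ℕ), 0 < T → (∀ (a : ℕ) (e : ZMod 2), ∃ x ∈ Ico a (a + T), f x ≠ e) →
  ∀ (ν K a c : ℕ) (e : ZMod 2), 0 < ν →
    #{U ∈ Ico (ν ^ K * a) (ν ^ K * c) | ∀ i ≤ K, f (U / ν ^ i) = e} ≤ (c - a) * (ν - ν / T) ^ K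

/-- **SQD** (short-medium, 50 lines). Proof. Let `s = sqrt (ν^(2K) p / B)`. With `w = ν^(K-j)`: `sqrt (ν^(2j) p / B) = s / w` means `(s/w)^2 B ≤ ν^(2j) p` and `ν^(2j) p < (s/w + 1)^2 B`. From
`s^2 B ≤ ν^(2K) p < (s+1)^2 B` and `w (s/w) ≤ s < w (s/w + 1)`, i.e. `s + 1 ≤ w (s/w + 1)`: `w^2 (s/w)^2 B ≤ s^2 B ≤ w^2 ν^(2j) p` and
`w^2 ν^(2j) p < (s+1)^2 B ≤ w^2 (s/w+1)^2 B`; cancel `w^2`. (`Nat.sqrt_le'`, `Nat.lt_succ_sqrt'`, `Nat.eq_sqrt'`.) -/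
def SQD_stmt : Prop := ∀ ν K j p B : ℕ, 0 < ν → 0 < B → j ≤ K →
  Nat.sqrt (ν ^ (2 * j) * p / B) = Nat.sqrt (ν ^ (2 * K) * p / B) / ν ^ (K - j)

open Classical in
/-- **BAD** (medium-long, 180 lines; from DIG, SQD, and `Pool.Agent.SCT.BTI` (Pool/Agent/helper47/SCT/BTI.lean): `∃ C > 0, ∀ y H ≥ 2, #primes of (y, y+H] ≤ C H / log H`).
Few primes have `f (sqrt (ν^(2j) p / B)) = e` for all `j ≤ K`. Proof. Put `U(p) = sqrt (ν^(2K) p / B)`. By SQD the condition is `f (U(p) / ν^i) = e` for all `i ≤ K`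
(`i = K - j`). For `p ∈ (y, 2y]`: `U(p)/ν^K = sqrt (p/B)` is in `[a, c)`, `a = sqrt (y/B)`, `c = sqrt (2y/B) + 1`, so `U(p) ∈ Ico (ν^K a) (ν^K c)` and
by DIG at most `(c - a) (ν - ν/T)^K` values of `U(p)` occur. `ν/T ≥ ν/(2T)` (real; since `ν ≥ T`), so `(ν - ν/T)^K ≤ ν^K ρ^K`, `ρ = 1 - 1/(2T)`. For large `y`:
`c - a ≤ √(2y/B) + 1 - (√(y/B) - 1) + 1 ≤ √(y/B)`. For given `U` the `p` satisfy `B U^2/ν^(2K) ≤ p < B (U+1)^2/ν^(2K)`, so they lie in an interval `Ioc z (z+H)` with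
`H = ⌊4 √(y B)/ν^K⌋` for large `y` (length `≤ B (2U+1)/ν^(2K) + 2`, `U + 1 ≤ ν^K c`, `c ≤ √(2y/B) + 1`, so it is at most `2 √2 √(yB)/ν^K + 2B/ν^K + 3`). BTI: at most
`C H/log H` primes, and `log H ≥ (log y)/3` for large `y`. Product: `√(y/B) ν^K ρ^K C (4 √(yB)/ν^K) 3/log y = 12 C ρ^K y/log y`. -/
def BAD_stmt : Prop := ∃ C₀ : ℝ, 0 < C₀ ∧ ∀ (f : ℕ → ZMod 2) (T : ℕ), 0 < T →
  (∀ (a : ℕ) (e : ZMod 2), ∃ x ∈ Ico a (a + T), f x ≠ e) → ∀ ν K B : ℕ, T ≤ ν → 0 < B →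
  ∃ y₀ : ℕ, ∀ y : ℕ, y₀ ≤ y → ∀ e : ZMod 2,
    (#{p ∈ Ioc y (2 * y) | p.Prime ∧ ∀ j ≤ K, f (Nat.sqrt (ν ^ (2 * j) * p / B)) = e} : ℝ) ≤
      C₀ * (1 - 1 / (2 * T)) ^ K * y / Real.log y

/-! ### Counting -/

open Classical in
/-- **FBP** (medium, 120 lines; model: Pool/Agent/helper40/OD/FIB.lean). Multiplicity. Proof. `C` depends on `B, Q₁, Q₂`. Let `N = 24 n - 1`; if the pair `(P, P')` leads to `n` then
`N ≤ 4 Q₁ Q₂ y^2` and `N > 0`. First type: `P ∣ N`, `y < P`; at most two primes `P > y` divide `N` if `4 Q₁ Q₂ < y` (three would give `y^3 < N`). Given `P`: `Q₂ P' - B u^2 = N/(Q₁ P)` and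
`B u^2 < 2 Q₂ y`, so `u ≤ sqrt (2 Q₂ y)`, and `u` determines `P'` (`Q₂ > 0`). Second type: `P' ∣ N`, at most two, `Q₁ P - B u^2 = N/(Q₂ P')`, `u ≤ sqrt (2 Q₁ y)` determines `P`.
Together at most `2 (sqrt (2 Q₂ y) + 1) + 2 (sqrt (2 Q₁ y) + 1)` pairs. -/
def FBP_stmt : Prop := ∀ B Q₁ Q₂ : ℕ, 0 < B → 0 < Q₁ → 0 < Q₂ → ∃ (C : ℝ) (y₀ : ℕ), 0 < C ∧ ∀ y : ℕ, y₀ ≤ y → ∀ n : ℕ,
  (#{x ∈ Ioc y (2 * y) ×ˢ Ioc y (2 * y) | x.1.Prime ∧ x.2.Prime ∧ RelP B Q₁ Q₂ x.1 x.2 n} : ℝ) ≤ C * √(y : ℝ)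

open Classical in
/-- **EXC** (medium, 110 lines; model: Pool/Agent/helper8/OD/EXO.lean). Exceptional pairs. Proof. First type: `B u^2 = Q₁ P + Q₂ P' ≤ 2 (Q₁+Q₂) y`, so `u ≤ sqrt (2 (Q₁+Q₂) y)`, and `(u, P)`
determines `P'`. Second type: for `(u, P')`, `u ≤ sqrt (2 Q₂ y)`, `m = Q₂ P' - B u^2`, `0 < m ≤ 2 Q₂ y`, `P > y` divides `m`: `m = P l`, `l ≤ 2 Q₂`: at most `2 Q₂` values of `P`.
Third type the same. Each type has at most `y (sqrt (..) + 1)` times a constant elements. -/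
def EXC_stmt : Prop := ∀ B Q₁ Q₂ : ℕ, 0 < B → 0 < Q₁ → 0 < Q₂ → ∃ (C : ℝ) (y₀ : ℕ), 0 < C ∧ ∀ y : ℕ, y₀ ≤ y →
  (#{x ∈ Ioc y (2 * y) ×ˢ Ioc y (2 * y) | x.1.Prime ∧ x.2.Prime ∧ ExcP B Q₁ Q₂ x.1 x.2} : ℝ) ≤ C * y * √(y : ℝ)

open Classical in
/-- **CNL** (medium, 90 lines; from FBP, EXC). Many pairs give many numbers. Proof. Every pair of `T` which is not exceptional leads to an `n ∈ S`; double counting
(`Finset.card_le_card_of_...` / `card_biUnion_le`): `#T ≤ C √y #S + C y √y`. `C y √y ≤ (c/2) y^2/(log y)^2` for large `y`, so `#S ≥ (c/(2C)) y^(3/2)/(log y)^2`. -/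
def CNL_stmt : Prop := ∀ (B Q₁ Q₂ : ℕ) (c : ℝ), 0 < B → 0 < Q₁ → 0 < Q₂ → 0 < c → ∃ (c₁ : ℝ) (y₁ : ℕ), 0 < c₁ ∧
  ∀ y : ℕ, y₁ ≤ y → ∀ (T : Finset (ℕ × ℕ)) (S : Finset ℕ), T ⊆ Ioc y (2 * y) ×ˢ Ioc y (2 * y) →
    (∀ x ∈ T, x.1.Prime ∧ x.2.Prime) →
    (∀ x ∈ T, ¬ ExcP B Q₁ Q₂ x.1 x.2 → ∃ n ∈ S, RelP B Q₁ Q₂ x.1 x.2 n) →
    c * (y : ℝ) ^ 2 / Real.log y ^ 2 ≤ #T → c₁ * (y : ℝ) ^ (3 / 2 : ℝ) / Real.log y ^ 2 ≤ #S

/-- **XFR** (short-medium, 70 lines). From `D y^2` to all `X`. Proof. For large `X` let `y = sqrt (X / D)`: `D y^2 ≤ X`, `y ≥ √(X/D)/2`, `y ≤ X`, so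
`f X ≥ f (D y^2) ≥ c₁ (√(X/D)/2)^(3/2)/(log X)^2` (`log y ≤ log X`, `y ≥ 2`). -/
def XFR_stmt : Prop := ∀ (f : ℕ → ℕ) (D y₀ : ℕ) (c₁ : ℝ), Monotone f → 0 < D → 0 < c₁ →
  (∀ y : ℕ, y₀ ≤ y → c₁ * (y : ℝ) ^ (3 / 2 : ℝ) / Real.log y ^ 2 ≤ (f (D * y ^ 2) : ℝ)) →
  ∃ c : ℝ, 0 < c ∧ ∃ X₀ : ℕ, ∀ X : ℕ, X₀ ≤ X → c * (X : ℝ) ^ (3 / 4 : ℝ) / Real.log X ^ 2 ≤ (f X : ℝ)

/-- **CLR** (short, 40 lines). The class of `n`. Proof. In both cases `24 n - 1` is `Q₁ P Q₂ P'` modulo `B = 2^b`. So `24 n = 24 n' mod 2^b`, `b ≥ 3`: `3 n = 3 n' mod 2^(b-3)`, `n = n' mod 2^(b-3)`,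
and `i ≤ b - 3`. -/
def CLR_stmt : Prop := ∀ b i Q₁ Q₂ P P' n n' : ℕ, i + 3 ≤ b → RelP (2 ^ b) Q₁ Q₂ P P' n →
  (Q₁ * P * (Q₂ * P') + 1) % 2 ^ b = (24 * n') % 2 ^ b → n % 2 ^ i = n' % 2 ^ i

/-! ### Existence of the data, the two parts, the theorem -/

/-- **CRO** (medium, 120 lines). The data of the odd part. Proof. `s`: any `2^κ - 3` primes `= 7 mod 24` (`κ = i + 2`, `Nat.infinite_setOf_prime_and_eq_mod` or
`Nat.forall_exists_prime_gt_and_eq_mod`; induction on the cardinality). `Q = ∏ q ∈ s, q` is prime to `6`; `Q = 7^(2^κ-3) = 7 mod 8`. Let `b = 2κ+1`. `P` in the class `c₁` modulo `L₁ = 3 * 2^b * Q` with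
`c₁ = 1 mod 3`, `c₁ = -1 mod 2^b`, `c₁ = -1 mod Q` (`Nat.chineseRemainder`). Then `P = 7 mod 24`. `P'` in the class `c₂` modulo `L₂ = 3 * 2^b` with `c₂ = 1 mod 3` and
`Q c₂ = 1 - 24 a mod 2^b` (`Q` is a unit modulo `2^b`); modulo 8: `7 c₂ = 1`, `c₂ = 7`. Then `P' = 7 mod 24`, and `P Q P' + 1 = -Q P' + 1 = 24 a mod 2^b`. Both classes are prime to the moduli. -/
def CRO_stmt : Prop := ∀ i a : ℕ, ∃ (s : Finset ℕ) (L₁ c₁ L₂ c₂ : ℕ), (∀ q ∈ s, q.Prime ∧ q % 24 = 7) ∧ #s + 3 = 2 ^ (i + 2) ∧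
  0 < L₁ ∧ 0 < L₂ ∧ c₁.Coprime L₁ ∧ c₂.Coprime L₂ ∧ ∀ P P' : ℕ, P % L₁ = c₁ % L₁ → P' % L₂ = c₂ % L₂ →
    P % 24 = 7 ∧ P' % 24 = 7 ∧ (∀ q ∈ s, q ∣ P + 1) ∧
    (1 * P * ((∏ q ∈ s, q) * P') + 1) % 2 ^ (2 * (i + 2) + 1) = (24 * a) % 2 ^ (2 * (i + 2) + 1)

/-- **CRE** (medium, 130 lines). The data of the even part. Proof. Let `b = 2i+3`. Given `n` in the class `a` modulo `2^i` with `r n ≠ 0`, i.e. `r n = 1`; put `n₀ = n + 2^i t` (positive, same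
class, `r n₀ = 1`). `u₀` := the product of the primes `l ∣ t` with `l ∤ 6 (24 n₀ - 1)`; it is prime to `6`. `mm = 24 n₀ - 1 + 2^b u₀^2` is prime to `24 t 2^b`: it is odd; modulo 3 it is `-1 + 2 = 1`
(`2^b = 2`, `u₀^2 = 1` modulo 3); for a prime `l ∣ t`, `l > 3`: if `l ∣ 24 n₀ - 1` then `l ∤ u₀` (the prime factors of `u₀` do not divide `24 n₀ - 1`), so `l ∤ 2^b u₀^2`; otherwise `l ∣ u₀` and
`l ∤ 24 n₀ - 1`. `s`: `2^b` primes `= 7 mod 24` larger than `24 t 2^b`. `μ`: a prime `= -1` modulo `24 t 2^b ∏ q` (Dirichlet, `Nat.forall_exists_prime_gt_and_eq_mod` with the unit `-1`). -/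
def CRE_stmt : Prop := ∀ (i a t : ℕ) (r : ℕ → ZMod 2), 0 < t → (∀ n, r (n + t) = r n) →
  (∃ n : ℕ, n % 2 ^ i = a % 2 ^ i ∧ r n ≠ 0) →
  ∃ (n₀ u₀ μ : ℕ) (s : Finset ℕ), EDat (2 * i + 3) t r n₀ u₀ μ s ∧ n₀ % 2 ^ i = a % 2 ^ i

open Classical in
/-- **PRE** (medium, 110 lines; uses `Pool.Agent.helper7.OC.primes_ap` (Pool/Agent/helper29/OC/PIAP.lean)). Many primes `P` and `P'`. Proof. `L = 24 t 2^b`, `Q = ∏ q ∈ s, q` is prime to `L` (all `q > L`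
prime) and to `μ` (`q ∣ μ + 1`). `L` is prime to `μ` (`L ∣ μ + 1`). First: the class `c` modulo `L μ` with `Q c = 1 mod L`, `Q c = -1 mod μ` exists and is prime to `L μ`; primes of this class in
`(y, 2y]`, `y ≥` all elements of `s`, satisfy `PC`. Second: the class `c'` modulo `L Q` with `c' = mm mod L`, `c' = -1 mod Q`, prime to `L Q` (EDat). -/
def PRE_stmt : Prop := ∀ (b t n₀ u₀ μ : ℕ) (r : ℕ → ZMod 2) (s : Finset ℕ), EDat b t r n₀ u₀ μ s →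
  (∃ (c : ℝ) (y₀ : ℕ), 0 < c ∧ ∀ y : ℕ, y₀ ≤ y → c * y / Real.log y ≤ (#{P ∈ Ioc y (2 * y) | PC b t μ s P} : ℝ)) ∧
  (∃ (c : ℝ) (y₀ : ℕ), 0 < c ∧ ∀ y : ℕ, y₀ ≤ y → c * y / Real.log y ≤ (#{P ∈ Ioc y (2 * y) | PD b t n₀ u₀ s P} : ℝ))

/-- The counting function. -/
def Nr (i a : ℕ) (r : ℕ → ZMod 2) (X : ℕ) : ℕ :=
  #{n ∈ range (X + 1) | n % 2 ^ i = a % 2 ^ i ∧ pp n ≠ r n}

/-- **FO** (medium, 120 lines; from OEV, CRO, CLR, CNL, XFR and `primes_ap`). The odd part. Proof. Data of CRO, `κ = i+2`, `b = 2κ+1`. `T` := the pairs of primes of `(y, 2y]` in the two classes,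
`y` larger than all elements of `s`: `#T ≥ c y^2/(log y)^2` (`primes_ap` twice). For `x ∈ T` not exceptional OEV gives `n` with `RelP` and `pp n ≠ 0`; by CLR `n = a mod 2^i` (`i + 3 ≤ b`), so `r n = 0`
(hypothesis) and `pp n ≠ r n`; `n ≤ D y^2` with `D = Q` (`24 n ≤ 2y * 2 Q y + 1`), so `n ∈ S` := the set of `Nr i a r (D y^2)`. CNL, XFR (`f = Nr i a r`). -/
def FO_stmt : Prop := ∀ (i a : ℕ) (r : ℕ → ZMod 2), (∀ n : ℕ, n % 2 ^ i = a % 2 ^ i → r n = 0) →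
  ∃ c : ℝ, 0 < c ∧ ∃ X₀ : ℕ, ∀ X : ℕ, X₀ ≤ X → c * (X : ℝ) ^ (3 / 4 : ℝ) / Real.log X ^ 2 ≤ (Nr i a r X : ℝ)

open Classical in
/-- **EPJ** (medium, 120 lines; from EVE-independent rows BAD, CHW, PRE, C2). Many pairs for one `j`. Let `f = chi b t (mm b n₀ u₀) r`, `T = 24 t + 1` (CHW), `ν = μ^2 ≥ T` (`24 t ∣ μ + 1`, `μ ≥ 24 t - 1`,
`(24t-1)^2 ≥ 24 t + 1`), `B = 2^b`, `ν^(2j) = μ^(4j)`. PRE: constants `c, c'`. Choose `K` with `C₀ (1 - 1/(2T))^K ≤ c'/2` (BAD). For every `P` with `PC` the number of the `P' ∈ (y, 2y]` with `PD` and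
`f (sqrt (μ^(4j) P'/2^b)) ≠ e (Q P)` for some `j ≤ K` is at least `(c'/2) y/log y` (BAD with `e = e (Q P)`). So the sum over `j ≤ K` of the numbers of pairs `(P, P')` with this property for `j` is at least
`(c c'/2) y^2/(log y)^2`, and one `j` has at least `(c c'/(2 (K+1))) y^2/(log y)^2`. -/
def EPJ_stmt : Prop := ∀ (b t n₀ u₀ μ : ℕ) (r : ℕ → ZMod 2) (s : Finset ℕ) (e : ℕ → ZMod 2), EDat b t r n₀ u₀ μ s →
  ∃ (K : ℕ) (c : ℝ) (y₀ : ℕ), 0 < c ∧ ∀ y : ℕ, y₀ ≤ y → ∃ j ≤ K, c * (y : ℝ) ^ 2 / Real.log y ^ 2 ≤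
    (#{x ∈ Ioc y (2 * y) ×ˢ Ioc y (2 * y) | PC b t μ s x.1 ∧ PD b t n₀ u₀ s x.2 ∧
      chi b t (mm b n₀ u₀) r (Nat.sqrt (μ ^ (4 * j) * x.2 / 2 ^ b)) ≠ e ((∏ q ∈ s, q) * x.1)} : ℝ)

/-- **FE** (medium, 130 lines; from EVE, C2, EPJ, CRE, CLR, CNL, XFR). The even part. Proof. Data of CRE, `b = 2i+3`, `e` from C2 (`mm = 7 mod 24`), `K, c` from EPJ. Let `D = Q μ^(4K)`. CNL for the finitely many
`Q₂ = μ^(4j)`, `j ≤ K`: common `c₁ > 0`, `y₁` (minimum, maximum; induction on `K` or `Finset.exists_min_image`). For large `y` take the `j` of EPJ, `T` := its set of pairs, `S` := the set of `Nr i a r (D y^2)`. A pair of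
`T` which is not exceptional leads to an `n` with `pp n ≠ r n` (EVE); CLR with `n' = n₀`: `Q P μ^(4j) P' + 1 = 1 * mm + 1 = 24 n₀ + 2^b u₀^2 = 24 n₀ mod 2^b`; so `n = n₀ = a mod 2^i`; `24 n ≤ 2 Q y * 2 μ^(4j) y + 1`, so
`n ≤ D y^2`. XFR. -/
def FE_stmt : Prop := ∀ (i a t : ℕ) (r : ℕ → ZMod 2), 0 < t → (∀ n, r (n + t) = r n) →
  (∃ n : ℕ, n % 2 ^ i = a % 2 ^ i ∧ r n ≠ 0) →
  ∃ c : ℝ, 0 < c ∧ ∃ X₀ : ℕ, ∀ X : ℕ, X₀ ≤ X → c * (X : ℝ) ^ (3 / 4 : ℝ) / Real.log X ^ 2 ≤ (Nr i a r X : ℝ)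

/-- **MAIN**. -/
def MAIN_stmt : Prop := ∀ (i a t : ℕ) (r : ℕ → ZMod 2), 0 < t → (∀ n, r (n + t) = r n) →
  ∃ c : ℝ, 0 < c ∧ ∃ X₀ : ℕ, ∀ X : ℕ, X₀ ≤ X → c * (X : ℝ) ^ (3 / 4 : ℝ) / Real.log X ^ 2 ≤ (Nr i a r X : ℝ)

theorem MAIN_of (hFO : FO_stmt) (hFE : FE_stmt) : MAIN_stmt := by
  intro i a t r ht hr
  by_cases h : ∃ n : ℕ, n % 2 ^ i = a % 2 ^ i ∧ r n ≠ 0
  · exact hFE i a t r ht hr h
  · refine hFO i a r fun n hn => ?_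
    by_contra h0
    exact h ⟨n, hn, h0⟩

end Pool.Agent.PQ
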